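import Pool.Agent.R319.SK.K4
import Pool.Agent.R319.SG.CO
import Pool.Agent.R319.SG.PE
import Pool.Agent.R319.SG.PX

open MeasureTheory ProbabilityTheory Filter Topology
open scoped ENNReal

namespace Pool.Agent.R319.SK

open Pool.Agent.R319.UM (box ez mon V2 cue)
open Pool.Agent.R319.SG

noncomputable section

variable {N K : ℕ}

/-- the mixture -/
def mix (ε : ℝ) (ρ κ : Measure (Fin N → ℝ)) : Measure (Fin N → ℝ) := ENNReal.ofReal ε • ρ + κ

lemma W_int {w : (Fin N → ℝ) → ℝ} (hw : w ∈ WK N K) (μ : Measure (Fin N → ℝ)) [IsFiniteMeasure μ] :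
    Integrable w μ := by
  obtain ⟨C, hC⟩ := bdd hw
  exact Integrable.of_bound (C := C) (cont hw).aestronglyMeasurable
    (Eventually.of_forall fun x => by rw [Real.norm_eq_abs]; exact hC x)

instance mix_fin (ε : ℝ) (ρ κ : Measure (Fin N → ℝ)) [IsFiniteMeasure ρ] [IsFiniteMeasure κ] :
    IsFiniteMeasure (mix ε ρ κ) := by
  unfold mix
  constructor
  rw [Measure.add_apply, Measure.smul_apply, smul_eq_mul]
  exact ENNReal.add_lt_top.2 ⟨ENNReal.mul_lt_top ENNReal.ofReal_lt_top (measure_lt_top _ _),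
    measure_lt_top _ _⟩

lemma mix_integral {ε : ℝ} (hε : 0 < ε) (ρ κ : Measure (Fin N → ℝ)) [IsFiniteMeasure ρ]
    [IsFiniteMeasure κ] {w : (Fin N → ℝ) → ℝ} (hw : w ∈ WK N K) :
    ∫ x, w x ∂(mix ε ρ κ) = ε * ∫ x, w x ∂ρ + ∫ x, w x ∂κ := by
  unfold mix
  rw [integral_add_measure ((W_int hw ρ).smul_measure ENNReal.ofReal_ne_top) (W_int hw κ),
    integral_smul_measure, ENNReal.toReal_ofReal hε.le, smul_eq_mul]

lemma mix_prob {ε : ℝ} {ρ κ : Measure (Fin N → ℝ)} [IsProbabilityMeasure ρ]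
    [IsFiniteMeasure κ] (h : ∀ w ∈ WK N K, ∫ x, w x ∂(mix ε ρ κ) = ∫ x, w x ∂(muN N)) :
    IsProbabilityMeasure (mix ε ρ κ) := by
  have hprob := muN_prob (cue_norm N)
  have h1 := h _ one_mem
  simp only [integral_const, smul_eq_mul, mul_one, probReal_univ] at h1
  exact ⟨by rwa [Measure.real, ENNReal.toReal_eq_one_iff] at h1⟩

/-- complex functions with both parts in `WW` -/
lemma cint {μ ν : Measure (Fin N → ℝ)} [IsFiniteMeasure μ] [IsFiniteMeasure ν]
    (h : ∀ w ∈ WK N K, ∫ x, w x ∂μ = ∫ x, w x ∂ν)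
    {f : (Fin N → ℝ) → ℂ} (hr : (fun θ => (f θ).re) ∈ WK N K) (hi : (fun θ => (f θ).im) ∈ WK N K) :
    ∫ x, f x ∂μ = ∫ x, f x ∂ν := by
  have key : ∀ (κ : Measure (Fin N → ℝ)) [IsFiniteMeasure κ], ∫ x, f x ∂κ =
      ((∫ x, (f x).re ∂κ : ℝ) : ℂ) + ((∫ x, (f x).im ∂κ : ℝ) : ℂ) * Complex.I := by
    intro κ _
    have hf : Integrable f κ := by
      have h1 := ((W_int hr κ).ofReal (𝕜 := ℂ)).add (((W_int hi κ).ofReal (𝕜 := ℂ)).mul_const Complex.I)
      refine h1.congr (Eventually.of_forall fun x => ?_)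
      simpa using Complex.re_add_im (f x)
    exact (integral_re_add_im hf).symm
  rw [key μ, key ν, h _ hr, h _ hi]

lemma poly_mem (F G : MvPolynomial (Fin N) ℂ) (hF : ∀ j, F.degreeOf j ≤ K)
    (hG : ∀ j, G.degreeOf j ≤ K) :
    (fun θ => (MvPolynomial.eval (ez θ) F * (starRingEnd ℂ) (MvPolynomial.eval (ez θ) G)).re) ∈ WK N K ∧
    (fun θ => (MvPolynomial.eval (ez θ) F * (starRingEnd ℂ) (MvPolynomial.eval (ez θ) G)).im) ∈ WK N K := by
  simp only [Pool.Agent.R319.UM.expand, Complex.re_sum, Complex.im_sum]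
  have hd : ∀ (P : MvPolynomial (Fin N) ℂ), (∀ j, P.degreeOf j ≤ K) →
      ∀ d ∈ P.support, ∀ j, d j ≤ K := by
    intro P hP d hd j
    exact (MvPolynomial.monomial_le_degreeOf j hd).trans (hP j)
  constructor
  · have e : (fun θ : Fin N → ℝ => ∑ d ∈ F.support, ∑ e ∈ G.support,
        (F.coeff d * (starRingEnd ℂ) (G.coeff e) * mon d e (ez θ)).re) =
        ∑ d ∈ F.support, ∑ e ∈ G.support, ((F.coeff d * (starRingEnd ℂ) (G.coeff e)).re •
          (fun θ : Fin N → ℝ => (mon d e (ez θ)).re) - (F.coeff d * (starRingEnd ℂ) (G.coeff e)).im •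
          (fun θ : Fin N → ℝ => (mon d e (ez θ)).im)) := by
      funext θ
      simp only [Finset.sum_apply, Pi.sub_apply, Pi.smul_apply, smul_eq_mul]
      refine Finset.sum_congr rfl fun d _ => Finset.sum_congr rfl fun e _ => ?_
      rw [Complex.mul_re]
    rw [e]
    refine Submodule.sum_mem _ fun d hd' => Submodule.sum_mem _ fun e he' => ?_
    exact Submodule.sub_mem _ (Submodule.smul_mem _ _ (re_mem (hd F hF d hd') (hd G hG e he')))
      (Submodule.smul_mem _ _ (im_mem (hd F hF d hd') (hd G hG e he')))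
  · have e : (fun θ : Fin N → ℝ => ∑ d ∈ F.support, ∑ e ∈ G.support,
        (F.coeff d * (starRingEnd ℂ) (G.coeff e) * mon d e (ez θ)).im) =
        ∑ d ∈ F.support, ∑ e ∈ G.support, ((F.coeff d * (starRingEnd ℂ) (G.coeff e)).re •
          (fun θ : Fin N → ℝ => (mon d e (ez θ)).im) + (F.coeff d * (starRingEnd ℂ) (G.coeff e)).im •
          (fun θ : Fin N → ℝ => (mon d e (ez θ)).re)) := by
      funext θ
      simp only [Finset.sum_apply, Pi.add_apply, Pi.smul_apply, smul_eq_mul]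
      refine Finset.sum_congr rfl fun d _ => Finset.sum_congr rfl fun e _ => ?_
      rw [Complex.mul_im]
    rw [e]
    refine Submodule.sum_mem _ fun d hd' => Submodule.sum_mem _ fun e he' => ?_
    exact Submodule.add_mem _ (Submodule.smul_mem _ _ (im_mem (hd F hF d hd') (hd G hG e he')))
      (Submodule.smul_mem _ _ (re_mem (hd F hF d hd') (hd G hG e he')))

/-- moments of degree at most `K` in each variable -/
def MomN (N K : ℕ) (ν : Measure (Fin N → ℂ)) : Prop :=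
  ∀ F G : MvPolynomial (Fin N) ℂ, (∀ j, F.degreeOf j ≤ K) → (∀ j, G.degreeOf j ≤ K) →
    ∫ z, MvPolynomial.eval z F * (starRingEnd ℂ) (MvPolynomial.eval z G) ∂ν =
      cue (fun z => MvPolynomial.eval z F * (starRingEnd ℂ) (MvPolynomial.eval z G))

/-- the moments of the law of the points -/
lemma mix_moments {ε : ℝ} {ρ κ : Measure (Fin N → ℝ)} [IsProbabilityMeasure ρ]
    [IsFiniteMeasure κ] (h : ∀ w ∈ WK N K, ∫ x, w x ∂(mix ε ρ κ) = ∫ x, w x ∂(muN N))
    (F G : MvPolynomial (Fin N) ℂ) (hF : ∀ j, F.degreeOf j ≤ K) (hG : ∀ j, G.degreeOf j ≤ K) :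
    ∫ z, MvPolynomial.eval z F * (starRingEnd ℂ) (MvPolynomial.eval z G) ∂((mix ε ρ κ).map ez) =
      cue (fun z => MvPolynomial.eval z F * (starRingEnd ℂ) (MvPolynomial.eval z G)) := by
  have hprob := muN_prob (cue_norm N)
  have hm := poly_mem F G hF hG
  rw [integral_map ez_cont.aemeasurable]
  · rw [cint h hm.1 hm.2, int_mu (fun z => MvPolynomial.eval z F * (starRingEnd ℂ) (MvPolynomial.eval z G))]
  · exact ((Pool.Agent.R319.UM.poly_cont F).mul
      (Complex.continuous_conj.comp (Pool.Agent.R319.UM.poly_cont G))).aestronglyMeasurable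

end

end Pool.Agent.R319.SK
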