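import Pool.Agent.R319.SK.K1
import Pool.Agent.R319.SG.PL

open MeasureTheory ProbabilityTheory Filter Topology
open scoped ENNReal

namespace Pool.Agent.R319.SK

open Pool.Agent.R319.UM (box ez mon V2 cue)
open Pool.Agent.R319.SG
open Pool.Agent.R319.SG.PLx (e norm_e conj_mul_e rest mon_upd DD DD_eval DD_deg)

variable {N K : ℕ}

lemma mon1 (a b : Fin N → ℕ) (hb : ∀ i, b i ≤ K) (θ : Fin N → ℝ) (j : Fin N)
    (t : ℝ) : mon a b (ez (Function.update θ j t)) * e t ^ K =
      rest a b θ j * e t ^ (K - b j + a j) := by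
  rw [mon_upd, pow_add, ← conj_mul_e t (hb j)]
  ring

lemma mon2 (a b : Fin N → ℕ) (ha : ∀ i, a i ≤ K) (θ : Fin N → ℝ) (j : Fin N)
    (t : ℝ) : (starRingEnd ℂ) (mon a b (ez (Function.update θ j t))) * e t ^ K =
      (starRingEnd ℂ) (rest a b θ j) * e t ^ (K - a j + b j) := by
  rw [mon_upd, pow_add, ← conj_mul_e t (ha j)]
  simp only [map_mul, RingHomCompTriple.comp_apply, RingHom.id_apply]
  ring

lemma polyW {w : (Fin N → ℝ) → ℝ} (hw : w ∈ WK N K) (j : Fin N) (θ : Fin N → ℝ) :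
    ∃ p : Polynomial ℂ, p.natDegree ≤ 2 * K ∧ ∀ t : ℝ,
      (w (Function.update θ j t) : ℂ) * e t ^ K = p.eval (e t) := by
  induction hw using Submodule.span_induction with
  | mem x hx =>
    obtain ⟨q, rfl⟩ := hx
    set a : Fin N → ℕ := fun j => (q.1 j : ℕ) with ha
    set b : Fin N → ℕ := fun j => (q.2.1 j : ℕ) with hb
    have ha' : ∀ i, a i ≤ K := fun i => Nat.lt_succ_iff.1 (q.1 i).2
    have hb' : ∀ i, b i ≤ K := fun i => Nat.lt_succ_iff.1 (q.2.1 i).2
    have hdeg : ∀ c d : ℂ, (Polynomial.C c * Polynomial.X ^ (K - b j + a j) +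
        Polynomial.C d * Polynomial.X ^ (K - a j + b j)).natDegree ≤ 2 * K := by
      intro c d
      refine (Polynomial.natDegree_add_le _ _).trans (max_le ?_ ?_)
      · refine (Polynomial.natDegree_C_mul_X_pow_le _ _).trans ?_
        have := ha' j; have := hb' j; omega
      · refine (Polynomial.natDegree_C_mul_X_pow_le _ _).trans ?_
        have := ha' j; have := hb' j; omega
    by_cases hq : q.2.2 = true
    · refine ⟨_, hdeg (rest a b θ j / 2) ((starRingEnd ℂ) (rest a b θ j) / 2), fun t => ?_⟩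
      have h1 : gen N K q (Function.update θ j t) = (mon a b (ez (Function.update θ j t))).re := by
        simp [gen, hq, ha, hb]
      rw [h1, Complex.re_eq_add_conj, Polynomial.eval_add, Polynomial.eval_mul,
        Polynomial.eval_mul, Polynomial.eval_C, Polynomial.eval_C, Polynomial.eval_pow,
        Polynomial.eval_pow, Polynomial.eval_X]
      have e1 := mon1 a b hb' θ j t
      have e2 := mon2 a b ha' θ j t
      linear_combination (1 / 2 : ℂ) * e1 + (1 / 2 : ℂ) * e2
    · refine ⟨_, hdeg (rest a b θ j / (2 * Complex.I))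
        (-((starRingEnd ℂ) (rest a b θ j) / (2 * Complex.I))), fun t => ?_⟩
      have h1 : gen N K q (Function.update θ j t) = (mon a b (ez (Function.update θ j t))).im := by
        simp [gen, hq, ha, hb]
      rw [h1, Complex.im_eq_sub_conj, Polynomial.eval_add, Polynomial.eval_mul,
        Polynomial.eval_mul, Polynomial.eval_C, Polynomial.eval_C, Polynomial.eval_pow,
        Polynomial.eval_pow, Polynomial.eval_X]
      have e1 := mon1 a b hb' θ j t
      have e2 := mon2 a b ha' θ j t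
      linear_combination (1 / (2 * Complex.I) : ℂ) * e1 - (1 / (2 * Complex.I) : ℂ) * e2
  | zero => exact ⟨0, by simp, fun t => by simp⟩
  | add x y _ _ hx hy =>
    obtain ⟨p, hp, hp'⟩ := hx
    obtain ⟨q, hq, hq'⟩ := hy
    refine ⟨p + q, (Polynomial.natDegree_add_le _ _).trans (max_le hp hq), fun t => ?_⟩
    rw [Polynomial.eval_add, ← hp' t, ← hq' t, Pi.add_apply]
    push_cast
    ring
  | smul a x _ hx =>
    obtain ⟨p, hp, hp'⟩ := hx
    refine ⟨Polynomial.C (a : ℂ) * p, (Polynomial.natDegree_C_mul_le _ _).trans hp, fun t => ?_⟩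
    rw [Polynomial.eval_mul, Polynomial.eval_C, ← hp' t, Pi.smul_apply, smul_eq_mul]
    push_cast
    ring

lemma final (hNK : N ≤ K) {w : (Fin N → ℝ) → ℝ} (hw : w ∈ WK N K) (j : Fin N) (θ : Fin N → ℝ)
    (c : Fin N → Fin N → Prop) [∀ i k, Decidable (c i k)] :
    ∃ p : Polynomial ℂ, p.natDegree ≤ 4 * K ∧ ∀ t : ℝ,
      |w (Function.update θ j t)| * (∏ i, ∏ k ∈ Finset.Ioi i, if c i k then 1 else
        ‖ez (Function.update θ j t) k - ez (Function.update θ j t) i‖ ^ 2) =
        ‖p.eval (e t)‖ := by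
  obtain ⟨P, hP, hP'⟩ := polyW hw j θ
  refine ⟨P * DD c θ j ^ 2, ?_, fun t => ?_⟩
  · refine Polynomial.natDegree_mul_le.trans ?_
    have h1 := Polynomial.natDegree_pow_le (p := DD c θ j) (n := 2)
    have h2 := DD_deg c θ j
    omega
  · rw [Polynomial.eval_mul, Polynomial.eval_pow, norm_mul, norm_pow, DD_eval, ← hP' t, norm_mul,
      norm_pow, norm_e, one_pow, mul_one]
    congr 1
    rw [Complex.norm_real, Real.norm_eq_abs]

theorem polyV (hNK : N ≤ K) {w : (Fin N → ℝ) → ℝ} (hw : w ∈ WK N K) (j : Fin N) (θ : Fin N → ℝ) :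
    ∃ p : Polynomial ℂ, p.natDegree ≤ 4 * K ∧ ∀ t : ℝ,
      |w (Function.update θ j t)| * V2 (ez (Function.update θ j t)) =
        ‖p.eval (Complex.exp (Complex.I * t))‖ := by
  obtain ⟨p, hp, h⟩ := final hNK hw j θ (fun _ _ => False)
  refine ⟨p, hp, fun t => ?_⟩
  have h1 := h t
  simp only [if_false] at h1
  exact h1

theorem polyQ {M : ℕ} (hNK : M + 2 ≤ K) {w : (Fin (M + 2) → ℝ) → ℝ} (hw : w ∈ WK (M + 2) K) (θ : Fin (M + 2) → ℝ) :
    ∃ p : Polynomial ℂ, p.natDegree ≤ 4 * K ∧ ∀ t : ℝ,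
      |w (Function.update θ 1 t)| * Q (ez (Function.update θ 1 t)) =
        ‖p.eval (Complex.exp (Complex.I * t))‖ := by
  obtain ⟨p, hp, h⟩ := final hNK hw 1 θ (fun i k => i = 0 ∧ k = 1)
  exact ⟨p, hp, fun t => h t⟩


end Pool.Agent.R319.SK
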