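import Pool.Agent.R319.SK.K1
import Pool.Agent.R319.SK.K2
import Pool.Agent.R319.SG.CV
import Pool.Agent.R319.SG.MQ

open MeasureTheory ProbabilityTheory Filter Topology
open scoped ENNReal

namespace Pool.Agent.R319.SK

open Pool.Agent.R319.UM (box ez mon V2 cue)
open Pool.Agent.R319.SG

variable {N K : ℕ}

theorem closeV_aux {w : (Fin N → ℝ) → ℝ} (hw : w ∈ WK N K) {i j : Fin N} (hij : i ≠ j)
    (hpoly : ∀ θ : Fin N → ℝ, ∃ p : Polynomial ℂ, p.natDegree ≤ 4 * K ∧ ∀ t : ℝ,
      |w (Function.update θ j t)| * V2 (ez (Function.update θ j t)) =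
        ‖p.eval (Complex.exp (Complex.I * t))‖)
    {δ : ℝ} (hδ : 0 ≤ δ) :
    ∫⁻ θ in box N ∩ {θ | ‖ez θ i - ez θ j‖ < δ}, ENNReal.ofReal (|w θ| * V2 (ez θ)) ≤
      ENNReal.ofReal (2 * (4 * K + 1) * δ) *
        ∫⁻ θ in box N, ENNReal.ofReal (|w θ| * V2 (ez θ)) := by
  have hfm : Measurable fun θ : Fin N → ℝ => ENNReal.ofReal (|w θ| * V2 (ez θ)) :=
    (((cont hw).abs.mul V2_cont).measurable).ennreal_ofReal
  have hS : MeasurableSet {θ : Fin N → ℝ | ‖ez θ i - ez θ j‖ < δ} :=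
    (isOpen_lt (dist_cont i j) continuous_const).measurableSet
  refine slice hfm j hS fun θ => ?_
  obtain ⟨p, hp, hpe⟩ := hpoly θ
  set T : Set ℝ := {t : ℝ | ‖Complex.exp (Complex.I * t) - Complex.exp (Complex.I * θ i)‖ < δ}
    with hT
  have hcT : Continuous fun t : ℝ =>
      ‖Complex.exp (Complex.I * t) - Complex.exp (Complex.I * θ i)‖ := by fun_prop
  have hTm : MeasurableSet T := (isOpen_lt hcT continuous_const).measurableSet
  have hcp : Continuous fun t : ℝ => ‖p.eval (Complex.exp (Complex.I * t))‖ := by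
    have h1 : Continuous fun z : ℂ => p.eval z := p.continuous
    have h2 : Continuous fun t : ℝ => Complex.exp (Complex.I * t) := by fun_prop
    exact (h1.comp h2).norm
  have hint : IntegrableOn (fun t : ℝ => ‖p.eval (Complex.exp (Complex.I * t))‖)
      (Set.Ioc (0 : ℝ) (2 * Real.pi)) :=
    (hcp.continuousOn.integrableOn_compact isCompact_Icc).mono_set Set.Ioc_subset_Icc_self
  have hL : ∫⁻ t in Set.Ioc (0 : ℝ) (2 * Real.pi),
      {θ : Fin N → ℝ | ‖ez θ i - ez θ j‖ < δ}.indicator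
        (fun θ => ENNReal.ofReal (|w θ| * V2 (ez θ))) (Function.update θ j t) =
      ENNReal.ofReal (∫ t in Set.Ioc (0 : ℝ) (2 * Real.pi) ∩ T,
        ‖p.eval (Complex.exp (Complex.I * t))‖) := by
    rw [ofReal_integral_eq_lintegral_ofReal (hint.mono_set Set.inter_subset_left)
      (Eventually.of_forall fun t => norm_nonneg _), Set.inter_comm,
      ← Measure.restrict_restrict hTm, ← lintegral_indicator hTm]
    refine lintegral_congr fun t => ?_
    have e1 : ez (Function.update θ j t) i = Complex.exp (Complex.I * θ i) := by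
      unfold ez
      rw [Function.update_of_ne hij]
    have e2 : ez (Function.update θ j t) j = Complex.exp (Complex.I * t) := by
      unfold ez
      rw [Function.update_self]
    by_cases ht : t ∈ T
    · have h1 : Function.update θ j t ∈ {θ : Fin N → ℝ | ‖ez θ i - ez θ j‖ < δ} := by
        change ‖ez (Function.update θ j t) i - ez (Function.update θ j t) j‖ < δ
        rw [e1, e2, norm_sub_rev]
        exact ht
      rw [Set.indicator_of_mem h1, Set.indicator_of_mem ht, hpe]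
    · have h1 : Function.update θ j t ∉ {θ : Fin N → ℝ | ‖ez θ i - ez θ j‖ < δ} := by
        change ¬ ‖ez (Function.update θ j t) i - ez (Function.update θ j t) j‖ < δ
        rw [e1, e2, norm_sub_rev]
        exact ht
      rw [Set.indicator_of_notMem h1, Set.indicator_of_notMem ht]
  have hR : ∫⁻ t in Set.Ioc (0 : ℝ) (2 * Real.pi),
      ENNReal.ofReal (|w (Function.update θ j t)| * V2 (ez (Function.update θ j t))) =
      ENNReal.ofReal (∫ t in Set.Ioc (0 : ℝ) (2 * Real.pi),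
        ‖p.eval (Complex.exp (Complex.I * t))‖) := by
    rw [ofReal_integral_eq_lintegral_ofReal hint (Eventually.of_forall fun t => norm_nonneg _)]
    refine lintegral_congr fun t => ?_
    rw [hpe]
  rw [hL, hR, ← ENNReal.ofReal_mul (by positivity)]
  refine ENNReal.ofReal_le_ofReal ?_
  have h := arc (4 * K) p hp (θ i) δ hδ
  push_cast at h
  exact h

theorem closeV (hNK : N ≤ K) {w : (Fin N → ℝ) → ℝ} (hw : w ∈ WK N K) {i j : Fin N} (hij : i ≠ j)
    {δ : ℝ} (hδ : 0 ≤ δ) :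
    ∫⁻ θ in box N ∩ {θ | ‖ez θ i - ez θ j‖ < δ}, ENNReal.ofReal (|w θ| * V2 (ez θ)) ≤
      ENNReal.ofReal (2 * (4 * K + 1) * δ) *
        ∫⁻ θ in box N, ENNReal.ofReal (|w θ| * V2 (ez θ)) :=
  closeV_aux hw hij (fun θ => polyV hNK hw j θ) hδ

theorem moveQ_of {M : ℕ} {w : (Fin (M + 2) → ℝ) → ℝ} (hw : w ∈ WK (M + 2) K) (s : ℝ)
    (nikw : ∀ (n : ℕ) (p : Polynomial ℂ), p.natDegree ≤ n → ∀ θ₀ u : ℝ,
      ‖p.eval (Complex.exp (Complex.I * θ₀))‖ ≤ 6 * (n + 1) ^ 3 *
        ∫ θ in Set.Ioc (0 : ℝ) (2 * Real.pi), ‖p.eval (Complex.exp (Complex.I * θ))‖ *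
          ‖Complex.exp (Complex.I * θ) - Complex.exp (Complex.I * u)‖ ^ 2)
    (polyQ : ∀ θ : Fin (M + 2) → ℝ,
      ∃ p : Polynomial ℂ, p.natDegree ≤ 4 * K ∧ ∀ t : ℝ,
        |w (Function.update θ 1 t)| * Q (ez (Function.update θ 1 t)) =
          ‖p.eval (Complex.exp (Complex.I * t))‖) :
    ∫⁻ θ in box (M + 2), ENNReal.ofReal (|w (mv s θ)| * Q (ez (mv s θ))) ≤
      ENNReal.ofReal (12 * Real.pi * (4 * (K : ℝ) + 1) ^ 3) *
        ∫⁻ θ in box (M + 2), ENNReal.ofReal (|w θ| * V2 (ez θ)) := by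
  have hwc : Continuous w := cont hw
  have hmv : Continuous (mv s : (Fin (M + 2) → ℝ) → (Fin (M + 2) → ℝ)) := by
    unfold mv
    exact continuous_id.update 1 ((continuous_apply 0).add continuous_const)
  have hf : Measurable fun θ : Fin (M + 2) → ℝ => ENNReal.ofReal (|w (mv s θ)| * Q (ez (mv s θ))) := by
    apply ENNReal.measurable_ofReal.comp
    exact (((hwc.comp hmv).abs).mul (mq_Qcont.comp (ez_cont.comp hmv))).measurable
  have hV : Continuous (V2 : (Fin (M + 2) → ℂ) → ℝ) := by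
    have : (V2 : (Fin (M + 2) → ℂ) → ℝ) = fun z => ‖z 1 - z 0‖ ^ 2 * Q z := funext mq_V2
    rw [this]
    exact (((continuous_apply 1).sub (continuous_apply 0)).norm.pow 2).mul mq_Qcont
  have hg : Measurable fun θ : Fin (M + 2) → ℝ => ENNReal.ofReal (|w θ| * V2 (ez θ)) := by
    apply ENNReal.measurable_ofReal.comp
    exact (hwc.abs.mul (hV.comp ez_cont)).measurable
  have hbox : (volume : Measure (Fin (M + 2) → ℝ)).restrict (box (M + 2))
      = Measure.pi fun _ : Fin (M + 2) => (volume : Measure ℝ).restrict (Set.Ioc 0 (2 * Real.pi)) := by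
    unfold box
    rw [volume_pi, Measure.restrict_pi_pi]
  rw [← lintegral_const_mul _ hg, hbox]
  refine lintegral_le_of_lmarginal_le {1} hf (hg.const_mul _) ?_
  rw [lmarginal_singleton, lmarginal_singleton]
  intro x
  show ∫⁻ t in Set.Ioc 0 (2 * Real.pi), ENNReal.ofReal (|w (mv s (Function.update x 1 t))| *
      Q (ez (mv s (Function.update x 1 t)))) ≤ ∫⁻ t in Set.Ioc 0 (2 * Real.pi),
      ENNReal.ofReal (12 * Real.pi * (4 * (K : ℝ) + 1) ^ 3) *
        ENNReal.ofReal (|w (Function.update x 1 t)| * V2 (ez (Function.update x 1 t)))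
  obtain ⟨p, hp, hpt⟩ := polyQ x
  have hA : ∀ t : ℝ, ENNReal.ofReal (|w (mv s (Function.update x 1 t))| *
      Q (ez (mv s (Function.update x 1 t))))
      = ENNReal.ofReal ‖p.eval (Complex.exp (Complex.I * ((x 0 + s : ℝ) : ℂ)))‖ := by
    intro t
    rw [mq_mv, hpt]
  have hB : ∀ t : ℝ, |w (Function.update x 1 t)| * V2 (ez (Function.update x 1 t))
      = ‖p.eval (Complex.exp (Complex.I * t))‖ *
          ‖Complex.exp (Complex.I * t) - Complex.exp (Complex.I * ((x 0 : ℝ) : ℂ))‖ ^ 2 := by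
    intro t
    rw [mq_V2, ← hpt t]
    have e1 : ez (Function.update x 1 t) 1 = Complex.exp (Complex.I * t) := by
      unfold ez
      rw [Function.update_self]
    have e0 : ez (Function.update x 1 t) 0 = Complex.exp (Complex.I * ((x 0 : ℝ) : ℂ)) := by
      unfold ez
      rw [Function.update_of_ne (by simp)]
    rw [e1, e0]
    ring
  simp only [hA, hB]
  have hcont : Continuous fun t : ℝ => ‖p.eval (Complex.exp (Complex.I * t))‖ *
          ‖Complex.exp (Complex.I * t) - Complex.exp (Complex.I * ((x 0 : ℝ) : ℂ))‖ ^ 2 := by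
    fun_prop
  have hmeas : Measurable fun t : ℝ => ENNReal.ofReal (‖p.eval (Complex.exp (Complex.I * t))‖ *
      ‖Complex.exp (Complex.I * t) - Complex.exp (Complex.I * ((x 0 : ℝ) : ℂ))‖ ^ 2) :=
    ENNReal.measurable_ofReal.comp hcont.measurable
  rw [lintegral_const, lintegral_const_mul _ hmeas,
    Measure.restrict_apply MeasurableSet.univ, Set.univ_inter, Real.volume_Ioc, sub_zero]
  have hint : Integrable (fun t : ℝ => ‖p.eval (Complex.exp (Complex.I * t))‖ *
          ‖Complex.exp (Complex.I * t) - Complex.exp (Complex.I * ((x 0 : ℝ) : ℂ))‖ ^ 2)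
      (volume.restrict (Set.Ioc 0 (2 * Real.pi))) :=
    (hcont.integrableOn_Icc).mono_set Set.Ioc_subset_Icc_self
  rw [← ofReal_integral_eq_lintegral_ofReal hint (Eventually.of_forall fun t => by positivity),
    ← ENNReal.ofReal_mul (norm_nonneg _), ← ENNReal.ofReal_mul (by positivity)]
  apply ENNReal.ofReal_le_ofReal
  have h := nikw (4 * K) p hp (x 0 + s) (x 0)
  push_cast at h
  have hpi := Real.pi_pos
  have h2 := mul_le_mul_of_nonneg_right h (show 0 ≤ 2 * Real.pi by positivity)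
  push_cast
  refine h2.trans (le_of_eq ?_)
  ring

theorem moveQ {M : ℕ} (hNK : M + 2 ≤ K) {w : (Fin (M + 2) → ℝ) → ℝ} (hw : w ∈ WK (M + 2) K) (s : ℝ) :
    ∫⁻ θ in box (M + 2), ENNReal.ofReal (|w (mv s θ)| * Q (ez (mv s θ))) ≤
      ENNReal.ofReal (12 * Real.pi * (4 * (K : ℝ) + 1) ^ 3) *
        ∫⁻ θ in box (M + 2), ENNReal.ofReal (|w θ| * V2 (ez θ)) :=
  moveQ_of hw s nikw (polyQ hNK hw)


end Pool.Agent.R319.SK
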