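import Pool.Agent.R319.SK.K4
import Pool.Agent.R319.SG.PE
import Pool.Agent.R319.SG.CO
import Pool.Agent.R319.SG.CQ
import Pool.Agent.R319.SG.LQ

/-!
The law with two close points.
-/

open MeasureTheory ProbabilityTheory Filter Topology
open scoped ENNReal

namespace Pool.Agent.R319.SK

open Pool.Agent.R319.UM (box ez mon V2 cue)
open Pool.Agent.R319.SG

noncomputable section

namespace RBK

variable {M K : ℕ}

/-- separated off the pair `(0, 1)` -/
def Sep (M K : ℕ) : Set (Fin (M + 2) → ℝ) :=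
  {θ | ∀ i j, i ≠ j → ¬ (i = 0 ∧ j = 1) → ¬ (i = 1 ∧ j = 0) → dl K ≤ ‖ez θ i - ez θ j‖}

lemma Sep_meas : MeasurableSet (Sep M K) := by
  unfold Sep
  apply IsClosed.measurableSet
  simp only [Set.ofPred_forall]
  refine isClosed_iInter fun i => isClosed_iInter fun j => isClosed_iInter fun _ =>
    isClosed_iInter fun _ => isClosed_iInter fun _ => ?_
  exact isClosed_le continuous_const (dist_cont i j)

lemma Q_cont : Continuous fun θ : Fin (M + 2) → ℝ => Q (ez θ) := by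
  unfold Q
  refine continuous_finsetProd _ fun i _ => continuous_finsetProd _ fun j _ => ?_
  split_ifs
  · exact continuous_const
  · exact ((ezi_cont j).sub (ezi_cont i)).norm.pow 2

lemma Q_nonneg (z : Fin (M + 2) → ℂ) : 0 ≤ Q z := by
  unfold Q
  refine Finset.prod_nonneg fun i _ => Finset.prod_nonneg fun j _ => ?_
  split_ifs
  · exact zero_le_one
  · positivity

lemma mv_cont : Continuous fun p : ℝ × (Fin (M + 2) → ℝ) => mv p.1 p.2 := by
  unfold mv
  exact continuous_snd.update 1 (((continuous_apply 0).comp continuous_snd).add continuous_fst)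

lemma mv_cont' (s : ℝ) : Continuous fun θ : Fin (M + 2) → ℝ => mv s θ :=
  mv_cont.comp (Continuous.prodMk continuous_const continuous_id)

/-- the density -/
def qs (K : ℕ) (θ : Fin (M + 2) → ℝ) : ℝ≥0∞ :=
  (Sep M K).indicator (fun θ => ENNReal.ofReal (Q (ez θ))) θ

lemma qs_meas : Measurable (qs (M := M) K) :=
  Q_cont.measurable.ennreal_ofReal.indicator Sep_meas

lemma qs_le (θ : Fin (M + 2) → ℝ) : qs K θ ≤ ENNReal.ofReal (Q (ez θ)) := by
  unfold qs
  exact Set.indicator_le_self _ _ _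

/-- the law before normalisation -/
def rp (K : ℕ) (τ : Measure ℝ) : Measure (Fin (M + 2) → ℝ) :=
  ((τ.prod (volume.restrict (box (M + 2)))).map fun p => mv p.1 p.2).withDensity (qs K)

lemma lint (τ : Measure ℝ) [IsProbabilityMeasure τ] {g : (Fin (M + 2) → ℝ) → ℝ≥0∞}
    (hg : Measurable g) :
    ∫⁻ θ, g θ ∂(rp K τ) = ∫⁻ s, (∫⁻ θ in box (M + 2), qs K (mv s θ) * g (mv s θ)) ∂τ := by
  unfold rp
  have hm : Measurable fun p : ℝ × (Fin (M + 2) → ℝ) =>
      ((qs K : (Fin (M + 2) → ℝ) → ℝ≥0∞) * g) (mv p.1 p.2) :=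
    (qs_meas.mul hg).comp mv_cont.measurable
  rw [lintegral_withDensity_eq_lintegral_mul _ qs_meas hg,
    lintegral_map (qs_meas.mul hg) mv_cont.measurable,
    lintegral_prod _ hm.aemeasurable]
  rfl

lemma lintV (hone : cue (N := M + 2) (fun _ => 1) = 1) :
    ∫⁻ θ in box (M + 2), ENNReal.ofReal (V2 (ez θ)) = ENNReal.ofReal (nc (M + 2)) := by
  have h := (muN_prob hone).measure_univ
  unfold muN at h
  rw [withDensity_apply _ MeasurableSet.univ, Measure.restrict_univ] at h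
  have hnc := nc_pos (N := M + 2)
  have h2 : ∀ θ : Fin (M + 2) → ℝ, ENNReal.ofReal (V2 (ez θ) / nc (M + 2)) =
      ENNReal.ofReal (nc (M + 2))⁻¹ * ENNReal.ofReal (V2 (ez θ)) := by
    intro θ
    rw [← ENNReal.ofReal_mul (inv_nonneg.2 hnc.le), div_eq_inv_mul]
  simp_rw [h2] at h
  rw [lintegral_const_mul _ V2_cont.measurable.ennreal_ofReal] at h
  have h3 : ENNReal.ofReal (nc (M + 2)) * ENNReal.ofReal (nc (M + 2))⁻¹ = 1 := by
    rw [← ENNReal.ofReal_mul hnc.le, mul_inv_cancel₀ hnc.ne', ENNReal.ofReal_one]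
  calc ∫⁻ θ in box (M + 2), ENNReal.ofReal (V2 (ez θ))
      = 1 * ∫⁻ θ in box (M + 2), ENNReal.ofReal (V2 (ez θ)) := (one_mul _).symm
    _ = ENNReal.ofReal (nc (M + 2)) * (ENNReal.ofReal (nc (M + 2))⁻¹ *
          ∫⁻ θ in box (M + 2), ENNReal.ofReal (V2 (ez θ))) := by rw [← h3, mul_assoc]
    _ = ENNReal.ofReal (nc (M + 2)) := by rw [h, mul_one]

/-- the constant in `moveQ` -/
def k1 (K : ℕ) : ℝ := 12 * Real.pi * (4 * K + 1) ^ 3

/-- the upper bound -/
def c1 (M K : ℕ) : ℝ := k1 K * nc (M + 2)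

/-- the lower bound -/
def c0 (M : ℕ) : ℝ := 3 / 4 * ((2 * Real.pi) ^ (M + 2) * M.factorial)

lemma k1_pos : 0 < k1 K := by
  unfold k1
  have := Real.pi_pos
  positivity

lemma c1_pos : 0 < c1 M K := mul_pos k1_pos nc_pos

lemma c0_pos : 0 < c0 M := by
  unfold c0
  have := Real.pi_pos
  positivity

lemma AA_pos' (hK : 0 < K) : 0 < AA K := by
  unfold AA
  have : (0 : ℝ) < K := by exact_mod_cast hK
  positivity

lemma ratio (hMK : M + 2 ≤ K) : c1 M K ≤ AA K * c0 M := by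
  unfold c1 c0 AA k1 nc
  have hf : ((M + 2).factorial : ℝ) = (M + 2) * ((M + 1) * M.factorial) := by
    rw [Nat.factorial_succ, Nat.factorial_succ]
    push_cast
    ring
  rw [hf]
  have hpi := Real.pi_le_four
  have hpi0 := Real.pi_pos
  have hM : (0 : ℝ) ≤ M := Nat.cast_nonneg M
  have hK : (M : ℝ) + 2 ≤ K := by exact_mod_cast hMK
  set X : ℝ := (4 * (K : ℝ) + 1) ^ 3 * ((2 * Real.pi) ^ (M + 2) * M.factorial) with hX
  have hX0 : 0 ≤ X := by positivity
  have e1 : 12 * Real.pi * (4 * (K : ℝ) + 1) ^ 3 *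
      (((M : ℝ) + 2) * (((M : ℝ) + 1) * M.factorial) * (2 * Real.pi) ^ (M + 2)) =
      X * (12 * Real.pi * (((M : ℝ) + 2) * ((M : ℝ) + 1))) := by
    rw [hX]; ring
  have e2 : 64 * (4 * (K : ℝ) + 1) ^ 3 * (K : ℝ) ^ 2 *
      (3 / 4 * ((2 * Real.pi) ^ (M + 2) * M.factorial)) = X * (48 * (K : ℝ) ^ 2) := by
    rw [hX]; ring
  rw [e1, e2]
  apply mul_le_mul_of_nonneg_left _ hX0
  have h1 : 12 * Real.pi * (((M : ℝ) + 2) * ((M : ℝ) + 1)) ≤
      12 * 4 * (((M : ℝ) + 2) * ((M : ℝ) + 1)) := by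
    apply mul_le_mul_of_nonneg_right _ (by positivity)
    linarith
  have h2 : ((M : ℝ) + 2) * ((M : ℝ) + 1) ≤ (K : ℝ) ^ 2 := by
    nlinarith
  linarith

/-- the hypotheses: the pieces moveQ, closeQ, lowQ, cue_one -/
structure Hyp (M K : ℕ) : Prop where
  move : ∀ {w : (Fin (M + 2) → ℝ) → ℝ}, w ∈ WK (M + 2) K → ∀ s : ℝ,
    ∫⁻ θ in box (M + 2), ENNReal.ofReal (|w (mv s θ)| * Q (ez (mv s θ))) ≤
      ENNReal.ofReal (12 * Real.pi * (4 * (K : ℝ) + 1) ^ 3) *
        ∫⁻ θ in box (M + 2), ENNReal.ofReal (|w θ| * V2 (ez θ))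
  close : ∀ (s : ℝ) {i j : Fin (M + 2)}, i ≠ j → ¬ (i = 0 ∧ j = 1) → ¬ (i = 1 ∧ j = 0) →
    ∀ {δ : ℝ}, 0 ≤ δ →
    ∫⁻ θ in box (M + 2) ∩ {θ | ‖ez (mv s θ) i - ez (mv s θ) j‖ < δ},
      ENNReal.ofReal (Q (ez (mv s θ))) ≤
      ENNReal.ofReal (2 * (4 * (M + 2) + 1) * δ) *
        ∫⁻ θ in box (M + 2), ENNReal.ofReal (Q (ez (mv s θ)))
  low : ∀ s : ℝ, ENNReal.ofReal ((2 * Real.pi) ^ (M + 2) * M.factorial) ≤
      ∫⁻ θ in box (M + 2), ENNReal.ofReal (Q (ez (mv s θ)))
  one : cue (N := M + 2) (fun _ => 1) = 1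

/-- the total mass for given `s` -/
def Rs (M K : ℕ) (s : ℝ) : ℝ≥0∞ := ∫⁻ θ in box (M + 2), qs K (mv s θ)

/-- the total mass without the restriction -/
def Ts (M : ℕ) (s : ℝ) : ℝ≥0∞ := ∫⁻ θ in box (M + 2), ENNReal.ofReal (Q (ez (mv s θ)))

lemma Ts_le (H : Hyp M K) (s : ℝ) : Ts M s ≤ ENNReal.ofReal (c1 M K) := by
  have h := H.move one_mem s
  simp only [abs_one, one_mul] at h
  rw [lintV H.one, ← ENNReal.ofReal_mul (by have := Real.pi_pos; positivity)] at h
  exact h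

lemma Rs_le (H : Hyp M K) (s : ℝ) : Rs M K s ≤ ENNReal.ofReal (c1 M K) :=
  (lintegral_mono fun _ => qs_le _).trans (Ts_le H s)

lemma moveW (H : Hyp M K) {w : (Fin (M + 2) → ℝ) → ℝ} (hw : w ∈ WK (M + 2) K) (s : ℝ) :
    ∫⁻ θ in box (M + 2), qs K (mv s θ) * ENNReal.ofReal |w (mv s θ)| ≤
      ENNReal.ofReal (k1 K) * ∫⁻ θ in box (M + 2), ENNReal.ofReal (|w θ| * V2 (ez θ)) := by
  refine le_trans (lintegral_mono fun θ => ?_) (H.move hw s)
  rw [ENNReal.ofReal_mul (abs_nonneg _), mul_comm]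
  exact mul_le_mul_right (qs_le _) _

lemma Rs_ge (hMK : M + 2 ≤ K) (H : Hyp M K) (s : ℝ) : ENNReal.ofReal (c0 M) ≤ Rs M K s := by
  classical
  have hdl : 0 ≤ dl K := by unfold dl; positivity
  set P : Finset (Fin (M + 2) × Fin (M + 2)) := Finset.univ.filter fun p =>
    p.1 ≠ p.2 ∧ ¬ (p.1 = 0 ∧ p.2 = 1) ∧ ¬ (p.1 = 1 ∧ p.2 = 0) with hP
  set Cl : Fin (M + 2) × Fin (M + 2) → Set (Fin (M + 2) → ℝ) := fun p =>
    {θ | ‖ez (mv s θ) p.1 - ez (mv s θ) p.2‖ < dl K} with hCl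
  have hClm : ∀ p, MeasurableSet (Cl p) := by
    intro p
    apply IsOpen.measurableSet
    exact isOpen_lt ((dist_cont p.1 p.2).comp (mv_cont' s)) continuous_const
  have hQm : Measurable fun θ : Fin (M + 2) → ℝ => ENNReal.ofReal (Q (ez (mv s θ))) :=
    (Q_cont.comp (mv_cont' s)).measurable.ennreal_ofReal
  -- pointwise bound
  have hpt : ∀ θ : Fin (M + 2) → ℝ, ENNReal.ofReal (Q (ez (mv s θ))) ≤ qs K (mv s θ) +
      ∑ p ∈ P, (Cl p).indicator (fun θ => ENNReal.ofReal (Q (ez (mv s θ)))) θ := by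
    intro θ
    by_cases hS : mv s θ ∈ Sep M K
    · have : qs K (mv s θ) = ENNReal.ofReal (Q (ez (mv s θ))) := by
        unfold qs; rw [Set.indicator_of_mem hS]
      rw [this]
      exact le_self_add
    · have hS' : ∃ i j, i ≠ j ∧ ¬ (i = 0 ∧ j = 1) ∧ ¬ (i = 1 ∧ j = 0) ∧
          ‖ez (mv s θ) i - ez (mv s θ) j‖ < dl K := by
        by_contra hcon
        apply hS
        intro i j h1 h2 h3
        by_contra h4
        exact hcon ⟨i, j, h1, h2, h3, not_le.1 h4⟩
      obtain ⟨i, j, h1, h2, h3, h4⟩ := hS'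
      have hmem : (i, j) ∈ P := by
        rw [hP, Finset.mem_filter]
        exact ⟨Finset.mem_univ _, h1, h2, h3⟩
      have hθ : θ ∈ Cl (i, j) := h4
      calc ENNReal.ofReal (Q (ez (mv s θ)))
          = (Cl (i, j)).indicator (fun θ => ENNReal.ofReal (Q (ez (mv s θ)))) θ := by
            rw [Set.indicator_of_mem hθ]
        _ ≤ ∑ p ∈ P, (Cl p).indicator (fun θ => ENNReal.ofReal (Q (ez (mv s θ)))) θ :=
            Finset.single_le_sum
              (f := fun p => (Cl p).indicator (fun θ => ENNReal.ofReal (Q (ez (mv s θ)))) θ)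
              (fun _ _ => zero_le) hmem
        _ ≤ _ := le_add_self
  have hsum : ∫⁻ θ in box (M + 2), ∑ p ∈ P,
      (Cl p).indicator (fun θ => ENNReal.ofReal (Q (ez (mv s θ)))) θ ≤
      ENNReal.ofReal (1 / 4) * Ts M s := by
    rw [MeasureTheory.lintegral_finsetSum' P
      (fun p _ => (hQm.indicator (hClm p)).aemeasurable)]
    have hb : ∀ p ∈ P, ∫⁻ θ in box (M + 2),
        (Cl p).indicator (fun θ => ENNReal.ofReal (Q (ez (mv s θ)))) θ ≤
        ENNReal.ofReal (2 * (4 * (M + 2) + 1) * dl K) * Ts M s := by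
      intro p hp
      rw [hP, Finset.mem_filter] at hp
      rw [lintegral_indicator (hClm p), Measure.restrict_restrict (hClm p), Set.inter_comm]
      exact H.close s hp.2.1 hp.2.2.1 hp.2.2.2 hdl
    refine (Finset.sum_le_sum hb).trans ?_
    rw [Finset.sum_const, nsmul_eq_mul, ← mul_assoc]
    gcongr
    have hcard : (P.card : ℝ) ≤ (M + 2) ^ 2 := by
      have h1 : P.card ≤ (M + 2) ^ 2 := by
        refine (Finset.card_filter_le _ _).trans ?_
        simp [sq]
      exact_mod_cast h1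
    have h2 : (P.card : ℝ≥0∞) = ENNReal.ofReal (P.card : ℝ) := by
      rw [ENNReal.ofReal_natCast]
    rw [h2, ← ENNReal.ofReal_mul (Nat.cast_nonneg _)]
    apply ENNReal.ofReal_le_ofReal
    have h3 : (0 : ℝ) ≤ 2 * (4 * (M + 2) + 1) * dl K := by positivity
    refine (mul_le_mul_of_nonneg_right hcard h3).trans ?_
    have hKR : (M : ℝ) + 2 ≤ K := by exact_mod_cast hMK
    have hK0 : (0 : ℝ) < K := by
      have : (0 : ℝ) ≤ M := Nat.cast_nonneg M
      linarith
    have hdK : dl K = 1 / (8 * (4 * K + 1) * K ^ 2) := rfl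
    rw [hdK]
    have h6 : ((M : ℝ) + 2) ^ 2 * (2 * (4 * ((M : ℝ) + 2) + 1)) ≤
        (K : ℝ) ^ 2 * (2 * (4 * (K : ℝ) + 1)) := by
      gcongr
    calc ((M : ℝ) + 2) ^ 2 * (2 * (4 * ((M : ℝ) + 2) + 1) * (1 / (8 * (4 * K + 1) * K ^ 2)))
        = (((M : ℝ) + 2) ^ 2 * (2 * (4 * ((M : ℝ) + 2) + 1))) * (1 / (8 * (4 * K + 1) * K ^ 2)) := by
          ring
      _ ≤ ((K : ℝ) ^ 2 * (2 * (4 * (K : ℝ) + 1))) * (1 / (8 * (4 * K + 1) * K ^ 2)) :=
          mul_le_mul_of_nonneg_right h6 (by positivity)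
      _ = 1 / 4 := by
          field_simp
          norm_num
  have hT : Ts M s ≤ Rs M K s + ENNReal.ofReal (1 / 4) * Ts M s := by
    calc Ts M s ≤ ∫⁻ θ in box (M + 2), (qs K (mv s θ) +
        ∑ p ∈ P, (Cl p).indicator (fun θ => ENNReal.ofReal (Q (ez (mv s θ)))) θ) :=
          lintegral_mono hpt
      _ = Rs M K s + ∫⁻ θ in box (M + 2), ∑ p ∈ P,
          (Cl p).indicator (fun θ => ENNReal.ofReal (Q (ez (mv s θ)))) θ := by
          have hm : Measurable fun θ : Fin (M + 2) → ℝ => qs K (mv s θ) :=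
            qs_meas.comp (mv_cont' s).measurable
          rw [lintegral_add_left hm]
          rfl
      _ ≤ _ := by gcongr
  have hfin : Ts M s ≠ ∞ := ne_top_of_le_ne_top ENNReal.ofReal_ne_top (Ts_le H s)
  have hsplit : Ts M s = ENNReal.ofReal (3 / 4) * Ts M s + ENNReal.ofReal (1 / 4) * Ts M s := by
    rw [← add_mul, ← ENNReal.ofReal_add (by norm_num) (by norm_num)]
    norm_num
  have h34 : ENNReal.ofReal (3 / 4) * Ts M s ≤ Rs M K s := by
    have h5 : ENNReal.ofReal (3 / 4) * Ts M s + ENNReal.ofReal (1 / 4) * Ts M s ≤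
        Rs M K s + ENNReal.ofReal (1 / 4) * Ts M s := by
      rw [← hsplit]
      exact hT
    exact (ENNReal.add_le_add_iff_right (ENNReal.mul_ne_top ENNReal.ofReal_ne_top hfin)).1 h5
  refine le_trans ?_ h34
  unfold c0
  rw [ENNReal.ofReal_mul (by norm_num)]
  gcongr
  exact H.low s

/-- the total mass -/
def RR (M K : ℕ) (τ : Measure ℝ) : ℝ≥0∞ := ∫⁻ s, Rs M K s ∂τ

lemma rp_univ (τ : Measure ℝ) [IsProbabilityMeasure τ] : rp (M := M) K τ Set.univ = RR M K τ := by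
  have h := lint (M := M) (K := K) τ (g := fun _ => 1) measurable_const
  simp only [lintegral_const, one_mul, mul_one] at h
  exact h

lemma RR_ge (hMK : M + 2 ≤ K) (H : Hyp M K) (τ : Measure ℝ) [IsProbabilityMeasure τ] :
    ENNReal.ofReal (c0 M) ≤ RR M K τ := by
  calc ENNReal.ofReal (c0 M) = ∫⁻ _, ENNReal.ofReal (c0 M) ∂τ := by simp
    _ ≤ _ := lintegral_mono fun s => Rs_ge hMK H s

lemma RR_le (H : Hyp M K) (τ : Measure ℝ) [IsProbabilityMeasure τ] :
    RR M K τ ≤ ENNReal.ofReal (c1 M K) := by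
  calc RR M K τ ≤ ∫⁻ _, ENNReal.ofReal (c1 M K) ∂τ := lintegral_mono fun s => Rs_le H s
    _ = _ := by simp

lemma mv_zero (s : ℝ) (θ : Fin (M + 2) → ℝ) : mv s θ 0 = θ 0 := by
  unfold mv
  rw [Function.update_of_ne (by simp)]

lemma mv_one (s : ℝ) (θ : Fin (M + 2) → ℝ) : mv s θ 1 = θ 0 + s := by
  unfold mv
  rw [Function.update_self]

lemma d01 (s : ℝ) (θ : Fin (M + 2) → ℝ) (hs : s ∈ Set.Icc (0 : ℝ) 1) :
    s / 2 ≤ ‖ez (mv s θ) 0 - ez (mv s θ) 1‖ ∧ ‖ez (mv s θ) 0 - ez (mv s θ) 1‖ ≤ s := by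
  unfold ez
  rw [mv_zero, mv_one]
  have e : |θ 0 - (θ 0 + s)| = s := by
    rw [show θ 0 - (θ 0 + s) = -s by ring, abs_neg, abs_of_nonneg hs.1]
  constructor
  · have h := pe_lower (x := θ 0) (y := θ 0 + s) (by rw [e]; linarith [hs.2])
    rw [e] at h
    exact h
  · rw [pe_dist]
    have h := Real.abs_sin_le_abs (x := (θ 0 - (θ 0 + s)) / 2)
    rw [abs_div, abs_two, e] at h
    linarith

lemma ne01 : (0 : Fin (M + 2)) ≠ 1 := by simp

lemma gap_le (s : ℝ) (θ : Fin (M + 2) → ℝ) (hs : s ∈ Set.Icc (0 : ℝ) 1) :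
    gap (ez (mv s θ)) ≤ ENNReal.ofReal s := by
  refine (iInf_le_of_le (0 : Fin (M + 2)) (iInf_le_of_le (1 : Fin (M + 2))
    (iInf_le_of_le ne01 le_rfl))).trans ?_
  exact ENNReal.ofReal_le_ofReal (d01 s θ hs).2

lemma gap_gt (s t : ℝ) (θ : Fin (M + 2) → ℝ) (hs : s ∈ Set.Icc (0 : ℝ) 1) (ht : 0 ≤ t)
    (htd : t < dl K) (hst : 2 * t < s) (hS : mv s θ ∈ Sep M K) :
    ¬ gap (ez (mv s θ)) ≤ ENNReal.ofReal t := by
  intro h
  have key : ENNReal.ofReal (min (dl K) (s / 2)) ≤ gap (ez (mv s θ)) := by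
    refine le_iInf fun i => le_iInf fun j => le_iInf fun hij => ENNReal.ofReal_le_ofReal ?_
    by_cases h1 : i = 0 ∧ j = 1
    · rw [h1.1, h1.2]
      exact (min_le_right _ _).trans (d01 s θ hs).1
    · by_cases h2 : i = 1 ∧ j = 0
      · rw [h2.1, h2.2, norm_sub_rev]
        exact (min_le_right _ _).trans (d01 s θ hs).1
      · exact (min_le_left _ _).trans (hS i j hij h1 h2)
  have h4 := (ENNReal.ofReal_le_ofReal_iff ht).1 (key.trans h)
  rcases min_le_iff.1 h4 with h5 | h5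
  · linarith
  · linarith

/-- the set of the configurations with a small gap -/
def GG (M : ℕ) (t : ℝ) : Set (Fin (M + 2) → ℝ) := {θ | gap (ez θ) ≤ ENNReal.ofReal t}

lemma GG_meas (t : ℝ) : MeasurableSet (GG M t) :=
  measurableSet_le (gap_meas.comp ez_cont.measurable) measurable_const

lemma rp_GG (τ : Measure ℝ) [IsProbabilityMeasure τ] (t : ℝ) : rp (M := M) K τ (GG M t) =
    ∫⁻ s, (∫⁻ θ in box (M + 2), qs K (mv s θ) * (GG M t).indicator 1 (mv s θ)) ∂τ := by
  rw [← lint (M := M) (K := K) τ (g := (GG M t).indicator 1) (measurable_one.indicator (GG_meas t)),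
    lintegral_indicator_one (GG_meas t)]

/-- the final statement -/
theorem main (hMK : M + 2 ≤ K) (H : Hyp M K) (τ : Measure ℝ) [IsProbabilityMeasure τ]
    (hτ : τ (Set.Icc 0 1)ᶜ = 0) :
    ∃ ρ : Measure (Fin (M + 2) → ℝ), IsProbabilityMeasure ρ ∧
      (∀ w ∈ WK (M + 2) K, ∫ θ, w θ ∂ρ ≤ AA K *
        ((nc (M + 2))⁻¹ * ∫ θ in box (M + 2), |w θ| * V2 (ez θ))) ∧
      (∀ t : ℝ, 0 ≤ t → t < dl K →
        ρ {θ | gap (ez θ) ≤ ENNReal.ofReal t} ≤
          ENNReal.ofReal (AA K) * τ (Set.Iic (2 * t))) ∧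
      (∀ t : ℝ, ENNReal.ofReal (AA K)⁻¹ * τ (Set.Iic t) ≤
        ρ {θ | gap (ez θ) ≤ ENNReal.ofReal t}) := by
  have hc0 := c0_pos (M := M)
  have hc1 := c1_pos (M := M) (K := K)
  have hk1 := k1_pos (K := K)
  have hA := AA_pos' (K := K) (by omega)
  have hnc := nc_pos (N := M + 2)
  have hrat := ratio hMK
  have hge := RR_ge hMK H τ
  have hle := RR_le H τ
  have hR0 : RR M K τ ≠ 0 := by
    intro h
    rw [h] at hge
    have : 0 < ENNReal.ofReal (c0 M) := ENNReal.ofReal_pos.2 hc0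
    exact absurd hge (not_le.2 this)
  have hRt : RR M K τ ≠ ∞ := ne_top_of_le_ne_top ENNReal.ofReal_ne_top hle
  have hinv : (RR M K τ)⁻¹ ≤ ENNReal.ofReal (c0 M)⁻¹ := by
    rw [ENNReal.ofReal_inv_of_pos hc0]
    exact ENNReal.inv_le_inv.2 hge
  have hinv' : ENNReal.ofReal (c1 M K)⁻¹ ≤ (RR M K τ)⁻¹ := by
    rw [ENNReal.ofReal_inv_of_pos hc1]
    exact ENNReal.inv_le_inv.2 hle
  have hIcc : ∀ᵐ s ∂τ, s ∈ Set.Icc (0 : ℝ) 1 := by
    rw [ae_iff]
    exact hτ
  refine ⟨(RR M K τ)⁻¹ • rp K τ, ?_, ?_, ?_, ?_⟩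
  · constructor
    rw [Measure.smul_apply, rp_univ, smul_eq_mul, ENNReal.inv_mul_cancel hR0 hRt]
  · intro w hw
    have hcw := cont hw
    have hVi : IntegrableOn (fun θ => |w θ| * V2 (ez θ)) (box (M + 2)) := by
      have hc : Continuous fun θ : Fin (M + 2) → ℝ => |w θ| * V2 (ez θ) :=
        hcw.abs.mul V2_cont
      have h : IntegrableOn (fun θ : Fin (M + 2) → ℝ => |w θ| * V2 (ez θ))
          (Set.univ.pi fun _ : Fin (M + 2) => Set.Icc (0 : ℝ) (2 * Real.pi)) :=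
        hc.continuousOn.integrableOn_compact (isCompact_univ_pi fun _ => isCompact_Icc)
      exact h.mono_set (Set.pi_mono fun _ _ => Set.Ioc_subset_Icc_self)
    have hVnn : 0 ≤ ∫ θ in box (M + 2), |w θ| * V2 (ez θ) :=
      integral_nonneg fun θ => mul_nonneg (abs_nonneg _) (V2_nonneg _)
    have hl : ∫⁻ θ in box (M + 2), ENNReal.ofReal (|w θ| * V2 (ez θ)) =
        ENNReal.ofReal (∫ θ in box (M + 2), |w θ| * V2 (ez θ)) :=
      (ofReal_integral_eq_lintegral_ofReal hVi (Eventually.of_forall fun θ =>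
        mul_nonneg (abs_nonneg _) (V2_nonneg _))).symm
    have h1 : ∫ θ, w θ ∂((RR M K τ)⁻¹ • rp K τ) ≤ ∫ θ, |w θ| ∂((RR M K τ)⁻¹ • rp K τ) :=
      (le_abs_self _).trans abs_integral_le_integral_abs
    refine h1.trans ?_
    rw [integral_eq_lintegral_of_nonneg_ae (Eventually.of_forall fun θ => abs_nonneg _)
      hcw.abs.aestronglyMeasurable]
    apply ENNReal.toReal_le_of_le_ofReal (by positivity)
    rw [lintegral_smul_measure, smul_eq_mul,
      lint (K := K) τ (g := fun θ => ENNReal.ofReal |w θ|) hcw.abs.measurable.ennreal_ofReal]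
    calc (RR M K τ)⁻¹ * ∫⁻ s, (∫⁻ θ in box (M + 2), qs K (mv s θ) * ENNReal.ofReal |w (mv s θ)|) ∂τ
        ≤ ENNReal.ofReal (c0 M)⁻¹ * ∫⁻ _, (ENNReal.ofReal (k1 K) *
            ∫⁻ θ in box (M + 2), ENNReal.ofReal (|w θ| * V2 (ez θ))) ∂τ :=
          mul_le_mul' hinv (lintegral_mono fun s => moveW H hw s)
      _ = ENNReal.ofReal ((c0 M)⁻¹ * (k1 K * ∫ θ in box (M + 2), |w θ| * V2 (ez θ))) := by
          rw [lintegral_const, measure_univ, mul_one, hl, ← ENNReal.ofReal_mul hk1.le,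
            ← ENNReal.ofReal_mul (inv_nonneg.2 hc0.le)]
      _ ≤ _ := by
          apply ENNReal.ofReal_le_ofReal
          rw [← mul_assoc, ← mul_assoc]
          apply mul_le_mul_of_nonneg_right _ hVnn
          rw [inv_mul_le_iff₀ hc0, ← div_eq_mul_inv, mul_div_assoc', le_div_iff₀ hnc]
          have : k1 K * nc (M + 2) = c1 M K := rfl
          rw [this]
          linarith
  · intro t ht htd
    rw [Measure.smul_apply, smul_eq_mul]
    have hset : {θ : Fin (M + 2) → ℝ | gap (ez θ) ≤ ENNReal.ofReal t} = GG M t := rfl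
    rw [hset, rp_GG]
    have hin : ∫⁻ s, (∫⁻ θ in box (M + 2), qs K (mv s θ) * (GG M t).indicator 1 (mv s θ)) ∂τ ≤
        ENNReal.ofReal (c1 M K) * τ (Set.Iic (2 * t)) := by
      calc ∫⁻ s, (∫⁻ θ in box (M + 2), qs K (mv s θ) * (GG M t).indicator 1 (mv s θ)) ∂τ
          ≤ ∫⁻ s, (Set.Iic (2 * t)).indicator (fun _ => ENNReal.ofReal (c1 M K)) s ∂τ := by
            apply lintegral_mono_ae
            filter_upwards [hIcc] with s hs
            by_cases h : s ≤ 2 * t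
            · rw [Set.indicator_of_mem (Set.mem_Iic.2 h)]
              refine le_trans (lintegral_mono fun θ => ?_) (Rs_le H s)
              by_cases h2 : mv s θ ∈ GG M t
              · rw [Set.indicator_of_mem h2]; simp
              · rw [Set.indicator_of_notMem h2]; simp
            · rw [Set.indicator_of_notMem (by simpa using h)]
              apply le_of_eq
              rw [lintegral_eq_zero_iff']
              · refine Eventually.of_forall fun θ => ?_
                show qs K (mv s θ) * (GG M t).indicator 1 (mv s θ) = 0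
                by_cases hS : mv s θ ∈ Sep M K
                · have h2 : mv s θ ∉ GG M t :=
                    gap_gt s t θ hs ht htd (not_le.1 h) hS
                  rw [Set.indicator_of_notMem h2, mul_zero]
                · unfold qs
                  rw [Set.indicator_of_notMem hS, zero_mul]
              · exact ((qs_meas.comp (mv_cont' s).measurable).mul
                  ((measurable_one.indicator (GG_meas t)).comp
                    (mv_cont' s).measurable)).aemeasurable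
        _ = ENNReal.ofReal (c1 M K) * τ (Set.Iic (2 * t)) := by
            rw [lintegral_indicator measurableSet_Iic, lintegral_const, Measure.restrict_apply_univ]
    calc (RR M K τ)⁻¹ * ∫⁻ s, (∫⁻ θ in box (M + 2),
          qs K (mv s θ) * (GG M t).indicator 1 (mv s θ)) ∂τ
        ≤ ENNReal.ofReal (c0 M)⁻¹ * (ENNReal.ofReal (c1 M K) * τ (Set.Iic (2 * t))) :=
          mul_le_mul' hinv hin
      _ = ENNReal.ofReal ((c0 M)⁻¹ * c1 M K) * τ (Set.Iic (2 * t)) := by
          rw [← mul_assoc, ← ENNReal.ofReal_mul (inv_nonneg.2 hc0.le)]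
      _ ≤ _ := by
          gcongr
          rw [inv_mul_le_iff₀ hc0]
          linarith
  · intro t
    rw [Measure.smul_apply, smul_eq_mul]
    have hset : {θ : Fin (M + 2) → ℝ | gap (ez θ) ≤ ENNReal.ofReal t} = GG M t := rfl
    rw [hset, rp_GG]
    have hin : ENNReal.ofReal (c0 M) * τ (Set.Iic t) ≤
        ∫⁻ s, (∫⁻ θ in box (M + 2), qs K (mv s θ) * (GG M t).indicator 1 (mv s θ)) ∂τ := by
      calc ENNReal.ofReal (c0 M) * τ (Set.Iic t)
          = ∫⁻ s, (Set.Iic t).indicator (fun _ => ENNReal.ofReal (c0 M)) s ∂τ := by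
            rw [lintegral_indicator measurableSet_Iic, lintegral_const, Measure.restrict_apply_univ]
        _ ≤ _ := by
            apply lintegral_mono_ae
            filter_upwards [hIcc] with s hs
            by_cases h : s ≤ t
            · rw [Set.indicator_of_mem (Set.mem_Iic.2 h)]
              refine (Rs_ge hMK H s).trans (lintegral_mono fun θ => ?_)
              have h2 : mv s θ ∈ GG M t := (gap_le s θ hs).trans (ENNReal.ofReal_le_ofReal h)
              rw [Set.indicator_of_mem h2]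
              simp
            · rw [Set.indicator_of_notMem (by simpa using h)]
              exact zero_le
    calc ENNReal.ofReal (AA K)⁻¹ * τ (Set.Iic t)
        ≤ ENNReal.ofReal ((c1 M K)⁻¹ * c0 M) * τ (Set.Iic t) := by
          gcongr
          rw [inv_mul_eq_div, le_div_iff₀ hc1, inv_mul_le_iff₀ hA]
          exact hrat
      _ = ENNReal.ofReal (c1 M K)⁻¹ * (ENNReal.ofReal (c0 M) * τ (Set.Iic t)) := by
          rw [← mul_assoc, ← ENNReal.ofReal_mul (inv_nonneg.2 hc1.le)]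
      _ ≤ _ := mul_le_mul' hinv' hin

end RBK

/-- the law with two close points -/
theorem exRhoK {M K : ℕ} (hMK : M + 2 ≤ K) (τ : Measure ℝ) [IsProbabilityMeasure τ]
    (hτ : τ (Set.Icc 0 1)ᶜ = 0) :
    ∃ ρ : Measure (Fin (M + 2) → ℝ), IsProbabilityMeasure ρ ∧
      (∀ w ∈ WK (M + 2) K, ∫ θ, w θ ∂ρ ≤ AA K *
        ((nc (M + 2))⁻¹ * ∫ θ in box (M + 2), |w θ| * V2 (ez θ))) ∧
      (∀ t : ℝ, 0 ≤ t → t < dl K →
        ρ {θ | gap (ez θ) ≤ ENNReal.ofReal t} ≤
          ENNReal.ofReal (AA K) * τ (Set.Iic (2 * t))) ∧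
      (∀ t : ℝ, ENNReal.ofReal (AA K)⁻¹ * τ (Set.Iic t) ≤
        ρ {θ | gap (ez θ) ≤ ENNReal.ofReal t}) :=
  RBK.main hMK ⟨fun hw s => moveQ hMK hw s, fun s _ _ hij h1 h2 _ hδ => closeQ s hij h1 h2 hδ,
    fun s => lowQ s, cue_norm _⟩ τ hτ

end

end Pool.Agent.R319.SK
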