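import Pool.Agent.R319.SK.K7
import Pool.Agent.R319.SG.T2
import Pool.Agent.R319.SG.FB

/-!
The exponent of the small gaps for independent blocks.
-/

open MeasureTheory ProbabilityTheory Filter Topology
open scoped ENNReal

namespace Pool.Agent.R319.SK

open Pool.Agent.R319.SG

noncomputable section

lemma log_max_tendsto {N D : ℕ → ℕ}
    (hN : Tendsto (fun k : ℕ => Real.log (N k) / Real.log k) atTop (𝓝 0))
    (hD : Tendsto (fun k : ℕ => Real.log (D k) / Real.log k) atTop (𝓝 0)) :
    Tendsto (fun k : ℕ => Real.log ((max (N k) (D k) : ℕ) : ℝ) / Real.log k) atTop (𝓝 0) := by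
  have h := hN.add hD
  rw [add_zero] at h
  refine squeeze_zero (fun k => ?_) (fun k => ?_) h
  · exact div_nonneg (Real.log_natCast_nonneg _) (Real.log_natCast_nonneg _)
  · rw [← add_div]
    refine div_le_div_of_nonneg_right ?_ (Real.log_natCast_nonneg _)
    have h1 := Real.log_natCast_nonneg (N k)
    have h2 := Real.log_natCast_nonneg (D k)
    rcases le_total (N k) (D k) with h3 | h3
    · rw [max_eq_right h3]
      linarith
    · rw [max_eq_left h3]
      linarith

theorem main {N D : ℕ → ℕ} (hN : ∀ k, 2 ≤ N k)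
    (hlogN : Tendsto (fun k : ℕ => Real.log (N k) / Real.log k) atTop (𝓝 0))
    (hlogD : Tendsto (fun k : ℕ => Real.log (D k) / Real.log k) atTop (𝓝 0))
    (α : EReal) (hα : α ≤ 0) :
    ∃ (ν : (k : ℕ) → Measure (Fin (N k) → ℂ)) (_ : ∀ k, IsProbabilityMeasure (ν k)),
      (∀ k, (∀ᵐ z ∂(ν k), ∀ i, ‖z i‖ = 1) ∧ MomN (N k) (D k) (ν k)) ∧
      ∀ᵐ x ∂(Measure.infinitePi ν),
        liminf (fun k : ℕ => ENNReal.log (gap (x k)) / ((Real.log k : ℝ) : EReal)) atTop = α := by
  obtain ⟨τ, hτ, hτ0, hτ1, hτ2⟩ := exTau2 α hα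
  have h := fun k => strong (hN k) (le_max_left (N k) (D k)) τ hτ0
  choose ν h0 h1 h2 h3 h4 using h
  refine ⟨ν, h0, fun k => ⟨h1 k, fun F G hF hG => h2 k F G
    (fun j => (hF j).trans (le_max_right _ _)) (fun j => (hG j).trans (le_max_right _ _))⟩, ?_⟩
  have hgm : ∀ k, Measurable (gap (N := N k)) := fun k => gap_meas
  have hind : iIndepFun (fun k (x : (k : ℕ) → Fin (N k) → ℂ) => gap (x k)) (Measure.infinitePi ν) :=
    iIndepFun_infinitePi (P := ν) (X := fun k z => gap z) hgm
  have hY : ∀ k, Measurable fun x : (k : ℕ) → Fin (N k) → ℂ => gap (x k) :=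
    fun k => (hgm k).comp (measurable_pi_apply k)
  have hm : ∀ (k : ℕ) (t : ℝ), (Measure.infinitePi ν)
      {x : (k : ℕ) → Fin (N k) → ℂ | gap (x k) ≤ ENNReal.ofReal t} =
      ν k {z | gap z ≤ ENNReal.ofReal t} := by
    intro k t
    have hs : MeasurableSet {z : Fin (N k) → ℂ | gap z ≤ ENNReal.ofReal t} :=
      measurableSet_le (hgm k) measurable_const
    rw [← (measurePreserving_eval_infinitePi ν k).measure_preimage hs.nullMeasurableSet]
    rfl
  refine finalBC (N := fun k => max (N k) (D k)) (fun k => (hN k).trans (le_max_left _ _))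
    (log_max_tendsto hlogN hlogD) α hα τ hτ1 hτ2 (Measure.infinitePi ν)
    (fun k x => gap (x k)) hY hind ?_ ?_
  · intro k t ht htd
    rw [hm]
    exact h3 k t ht htd
  · intro k t
    rw [hm]
    exact h4 k t

end

end Pool.Agent.R319.SK
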