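import Pool.Agent.R319.SG.CO
import Pool.Agent.R319.SG.PE
import Pool.Agent.R319.SG.HU
import Pool.Agent.R319.SG.HL
import Pool.Agent.R319.SG.HB

/-!
The exponent of the small gaps for independent Haar blocks.
-/

open MeasureTheory ProbabilityTheory Filter Topology
open scoped ENNReal

namespace Pool.Agent.R319.SK

open Pool.Agent.R319.UM (box ez mon V2 cue)
open Pool.Agent.R319.SG

noncomputable section

/-- the law of the eigenvalues -/
def haar (N : ℕ) : Measure (Fin N → ℂ) := (muN N).map ez

instance haar_prob (N : ℕ) : IsProbabilityMeasure (haar N) := by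
  have := muN_prob (cue_norm N)
  exact Measure.isProbabilityMeasure_map ez_cont.aemeasurable

lemma haar_int {N : ℕ} (F G : MvPolynomial (Fin N) ℂ) :
    ∫ z, MvPolynomial.eval z F * (starRingEnd ℂ) (MvPolynomial.eval z G) ∂(haar N) =
      cue (fun z => MvPolynomial.eval z F * (starRingEnd ℂ) (MvPolynomial.eval z G)) := by
  unfold haar
  rw [integral_map ez_cont.aemeasurable]
  · exact int_mu (fun z => MvPolynomial.eval z F * (starRingEnd ℂ) (MvPolynomial.eval z G))
  · exact ((Pool.Agent.R319.UM.poly_cont F).mul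
      (Complex.continuous_conj.comp (Pool.Agent.R319.UM.poly_cont G))).aestronglyMeasurable

theorem main_haar {N : ℕ → ℕ} (hN : ∀ k, 2 ≤ N k)
    (hlog : Tendsto (fun k : ℕ => Real.log (N k) / Real.log k) atTop (𝓝 0)) :
    ∀ᵐ x ∂(Measure.infinitePi fun k => haar (N k)),
      liminf (fun k : ℕ => ENNReal.log (gap (x k)) / ((Real.log k : ℝ) : EReal)) atTop =
        ((-1 / 3 : ℝ) : EReal) := by
  have hgm : ∀ k, Measurable (gap (N := N k)) := fun k => gap_meas
  have hind : iIndepFun (fun k (x : (k : ℕ) → Fin (N k) → ℂ) => gap (x k))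
      (Measure.infinitePi fun k => haar (N k)) :=
    iIndepFun_infinitePi (P := fun k => haar (N k)) (X := fun k z => gap z) hgm
  have hY : ∀ k, Measurable fun x : (k : ℕ) → Fin (N k) → ℂ => gap (x k) :=
    fun k => (hgm k).comp (measurable_pi_apply k)
  have hm : ∀ (k : ℕ) (t : ℝ), (Measure.infinitePi fun k => haar (N k))
      {x : (k : ℕ) → Fin (N k) → ℂ | gap (x k) ≤ ENNReal.ofReal t} =
      muN (N k) {θ | gap (ez θ) ≤ ENNReal.ofReal t} := by
    intro k t
    have hs : MeasurableSet {z : Fin (N k) → ℂ | gap z ≤ ENNReal.ofReal t} :=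
      measurableSet_le (hgm k) measurable_const
    have h1 := (measurePreserving_eval_infinitePi (fun k => haar (N k)) k).measure_preimage
      hs.nullMeasurableSet
    have h2 : haar (N k) {z : Fin (N k) → ℂ | gap z ≤ ENNReal.ofReal t} =
        muN (N k) {θ | gap (ez θ) ≤ ENNReal.ofReal t} := by
      unfold haar
      rw [Measure.map_apply ez_cont.measurable hs]
      rfl
    rw [← h2, ← h1]
    rfl
  refine finalHaar hN hlog (Measure.infinitePi fun k => haar (N k)) (fun k x => gap (x k))
    hY hind ?_ ?_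
  · intro k t ht
    rw [hm]
    exact haarUp (cue_norm (N k)) (hN k) ht
  · intro k t ht ht1
    rw [hm]
    exact haarLow (hN k) ht ht1

end

end Pool.Agent.R319.SK
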